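import Pool.Agent.Helper29.SR.Props
import Pool.Agent.Helper10.RC.Homs

/-!
# MP_b55b7c_an, project SR: packet Pass
-/

open scoped ENNReal NNReal InnerProductSpace ComplexOrder
open Filter Topology

attribute [-instance] CStarMatrix.instAlgebra CStarMatrix.instModule CStarMatrix.instSMul
  CStarMatrix.instMulAction CStarMatrix.instDistribMulAction

noncomputable section
namespace RC
universe u

section
variable {M : Type u} [CStarAlgebra M] [PartialOrder M] [StarOrderedRing M]

theorem pass_cu_smul {ι : Type} [Fintype ι] [DecidableEq ι] (c : ℝ) (hc : 0 ≤ c)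
    (x : CStarMatrix ι ι M) : Cu (c • x) x := fun ε hε => by
  refine ⟨Real.sqrt c • (1 : CStarMatrix ι ι M), ?_⟩
  have : Real.sqrt c • (1 : CStarMatrix ι ι M) * x *
      (Real.sqrt c • (1 : CStarMatrix ι ι M)).conjTranspose = c • x := by
    rw [cm_conj_rsmul, cm_conj_one, cm_rsmul_mul, cm_one_mul, cm_mul_rsmul, cm_mul_one, smul_smul,
      Real.mul_self_sqrt hc]
  rw [this, sub_self, norm_zero]
  exact hε

theorem pass_one1_smul (c : ℝ) (x : M) : one1 (c • x) = c • one1 x := rfl

theorem pass_one1_le {x y : M} (h : x ≤ y) : one1 x ≤ one1 y := by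
  have h0 : one1H (y - x) = one1H y - one1H x := map_sub _ _ _
  have h1 : 0 ≤ one1 (y - x) := one1_nonneg (sub_nonneg.2 h)
  exact sub_nonneg.1 (h0 ▸ h1 : (0 : CStarMatrix Unit Unit M) ≤ one1H y - one1H x)

theorem pass_one1_one : one1 (1 : M) = 1 := map_one one1H

theorem pass_cu_leAdd (hLe : CuLeAddP.{u}) {x y : M} {ε : ℝ} (hε : 0 ≤ ε) (hx : 0 ≤ x)
    (hy : 0 ≤ y) (h : x ≤ y + ε • (1 : M)) : Cu (one1 (cut x ε)) (one1 y) := by
  rw [← cut_one1 hx.isSelfAdjoint]
  refine hLe M Unit (one1 x) (one1 y) ε hε (one1_nonneg hx) (one1_nonneg hy) ?_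
  have h1 := pass_one1_le h
  have h2 : one1H (y + ε • (1 : M)) = one1H y + one1H (ε • (1 : M)) := map_add _ _ _
  have h3 : one1 (ε • (1 : M)) = ε • (1 : CStarMatrix Unit Unit M) := by
    rw [pass_one1_smul, pass_one1_one]
  calc one1 x ≤ one1H (y + ε • (1 : M)) := h1
    _ = one1 y + ε • (1 : CStarMatrix Unit Unit M) := by
      rw [h2]; exact congrArg (one1 y + ·) h3

theorem pass_cu_swap (hSw : CuSwapP.{u}) (z : M) {ε : ℝ} (hε : 0 ≤ ε) :
    Cu (one1 (cut (star z * z) ε)) (one1 (cut (z * star z) ε)) := by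
  have h := hSw M Unit Unit (one1 (star z)) ε hε
  have h1 : one1 (star z) * (one1 (star z)).conjTranspose = one1 (star z * z) := by
    have h2 : (one1 (star z)).conjTranspose = one1 z := by
      ext i j
      show star (star z) = z
      exact star_star z
    rw [h2]
    exact (map_mul (one1H (A := M)) (star z) z).symm
  have h3 : (one1 (star z)).conjTranspose * one1 (star z) = one1 (z * star z) := by
    have h2 : (one1 (star z)).conjTranspose = one1 z := by
      ext i j
      show star (star z) = z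
      exact star_star z
    rw [h2]
    exact (map_mul (one1H (A := M)) z (star z)).symm
  rw [h1, h3, cut_one1 (IsSelfAdjoint.star_mul_self z), cut_one1 (IsSelfAdjoint.mul_star_self z)] at h
  exact h

/-- `x ≤ C cut y s + (C s) 1` if `x ≤ C y`. -/
theorem pass_le_cut {x y : M} {C s : ℝ} (hC : 0 ≤ C) (hy : IsSelfAdjoint y) (h : x ≤ C • y) :
    x ≤ C • cut y s + (C * s) • (1 : M) := by
  refine h.trans ?_
  have := smul_le_smul_of_nonneg_left (le_cut_add hy s) hC
  rwa [smul_add, smul_smul] at this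

end

theorem passP (hTr : CuTransP.{u}) (hLe : CuLeAddP.{u}) (hSw : CuSwapP.{u})
    (hQ : QMonoP.{u}) : PassP.{u} := by
  intro M _ _ _ v w ε δ θ hδ hθ hB
  set F : M := cut (sq v) ε with hF
  have hFsa : IsSelfAdjoint F := cut_sa _ _
  set W : M := w * F with hW
  have hWW : star W * W = F * sq w * F := by
    rw [hW, star_mul, hFsa.star_eq, sq]
    simp only [mul_assoc]
  have hFF : 0 ≤ F * F := by
    have := star_mul_self_nonneg F
    rwa [hFsa.star_eq] at this
  set K : ℝ := ‖F‖ ^ 2 + 1 with hK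
  have hK0 : 0 < K := by positivity
  set s : ℝ := δ * θ / (4 * K) with hs
  have hs0 : 0 < s := by positivity
  have hKs : K * s = δ * θ / 4 := by
    rw [hs]; field_simp
  refine ⟨s, hs0, fun σ => ?_⟩
  -- step 1
  have h1 : F * F ≤ δ⁻¹ • (star W * W) := by
    rw [hWW]
    have := smul_le_smul_of_nonneg_left hB (inv_nonneg.2 hδ.le)
    rwa [smul_smul, inv_mul_cancel₀ hδ.ne', one_smul] at this
  have h2 : F * F ≤ δ⁻¹ • cut (star W * W) (δ * θ / 2) + θ • (1 : M) := by
    refine (pass_le_cut (s := δ * θ / 2) (inv_nonneg.2 hδ.le) (IsSelfAdjoint.star_mul_self W)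
      h1).trans ?_
    refine add_le_add le_rfl ?_
    refine smul_le_smul_of_nonneg_right ?_ zero_le_one
    have : δ⁻¹ * (δ * θ / 2) = θ / 2 := by field_simp
    rw [this]; linarith
  have c1 : Cu (one1 (cut (F * F) θ)) (one1 (δ⁻¹ • cut (star W * W) (δ * θ / 2))) :=
    pass_cu_leAdd hLe hθ.le hFF (smul_nonneg (inv_nonneg.2 hδ.le) (cut_nonneg _ _)) h2
  have c2 : Cu (one1 (δ⁻¹ • cut (star W * W) (δ * θ / 2)))
      (one1 (cut (star W * W) (δ * θ / 2))) := pass_cu_smul _ (inv_nonneg.2 hδ.le) _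
  have c3 : Cu (one1 (cut (star W * W) (δ * θ / 2))) (one1 (cut (W * star W) (δ * θ / 2))) :=
    pass_cu_swap hSw W (by positivity)
  -- step 2
  have h4 : F * F ≤ K • (1 : M) := by
    have hn : ‖F * F‖ ≤ K := by
      calc ‖F * F‖ ≤ ‖F‖ * ‖F‖ := norm_mul_le _ _
        _ ≤ K := by rw [hK]; nlinarith
    have := (CStarAlgebra.norm_le_iff_le_algebraMap (F * F) hK0.le hFF).1 hn
    rwa [Algebra.algebraMap_eq_smul_one] at this
  have h5 : W * star W ≤ K • (w * star w) := by
    have e1 : W * star W = w * (F * F) * star w := by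
      rw [hW, star_mul, hFsa.star_eq]
      simp only [mul_assoc]
    have e2 := star_right_conjugate_le_conjugate h4 w
    rw [e1]
    refine e2.trans (le_of_eq ?_)
    rw [mul_smul_comm, mul_one, smul_mul_assoc]
  have h6 : W * star W ≤ K • cut (w * star w) s + (δ * θ / 2) • (1 : M) := by
    refine (pass_le_cut (s := s) hK0.le (IsSelfAdjoint.mul_star_self w) h5).trans ?_
    refine add_le_add le_rfl ?_
    refine smul_le_smul_of_nonneg_right ?_ zero_le_one
    rw [hKs]
    have : 0 < δ * θ := by positivity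
    linarith
  have c4 : Cu (one1 (cut (W * star W) (δ * θ / 2))) (one1 (K • cut (w * star w) s)) :=
    pass_cu_leAdd hLe (by positivity) (mul_star_self_nonneg W)
      (smul_nonneg hK0.le (cut_nonneg _ _)) h6
  have c5 : Cu (one1 (K • cut (w * star w) s)) (one1 (cut (w * star w) s)) :=
    pass_cu_smul _ hK0.le _
  have c6 : Cu (one1 (cut (w * star w) s)) (one1 (cut (sq w) s)) := by
    have := pass_cu_swap hSw (star w) hs0.le
    rwa [star_star] at this
  have c : Cu (one1 (cut (F * F) θ)) (one1 (cut (sq w) s)) :=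
    hTr M _ _ _ _ _ _ (hTr M _ _ _ _ _ _ (hTr M _ _ _ _ _ _ (hTr M _ _ _ _ _ _
      (hTr M _ _ _ _ _ _ c1 c2) c3) c4) c5) c6
  exact hQ M σ Unit Unit _ _ (one1_nonneg (cut_nonneg _ _)) (one1_nonneg (cut_nonneg _ _)) c

end RC
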